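import Mathlib

set_option autoImplicit false

namespace Pool.Agent.TH534.NG

open Finset

/-- `S` is a total dominating set of `G`: every vertex (also those of `S`) has a neighbour in `S`. -/
def IsTotalDominating {V : Type} (G : SimpleGraph V) (S : Finset V) : Prop :=
  ∀ v : V, ∃ u ∈ S, G.Adj v u

/-- The total domination number of `G`: the least size of a total dominating set. -/
noncomputable def gammaT {V : Type} (G : SimpleGraph V) : ℕ :=
  sInf {k : ℕ | ∃ S : Finset V, IsTotalDominating G S ∧ S.card = k}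

open Classical in
/-- `δ*(G) = min (δ(G), δ(complement of G))`. -/
noncomputable def deltaStar {V : Type} [Fintype V] (G : SimpleGraph V) : ℕ :=
  min G.minDegree Gᶜ.minDegree

/-- the point `p` lies on the line `l` of the Fano plane -/
def on (p l : Fin 7) : Prop := l = p ∨ l = p + 1 ∨ l = p + 3

instance (p l : Fin 7) : Decidable (on p l) := by unfold on; infer_instance

/-- adjacency of the bipartite complement of the Heawood graph: `(p, false)` are the points,
`(l, true)` the lines, a point is joined to the lines that do not contain it. -/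
def badj : Fin 7 × Bool → Fin 7 × Bool → Prop
  | (p, false), (l, true) => ¬ on p l
  | (l, true), (p, false) => ¬ on p l
  | _, _ => False

instance : DecidableRel badj := by
  rintro ⟨a, (_ | _)⟩ ⟨b, (_ | _)⟩ <;> unfold badj <;> infer_instance

lemma badj_symm : ∀ x y, badj x y → badj y x := by decide

lemma badj_irrefl : ∀ x, ¬ badj x x := by decide

lemma badj_deg : ∀ x, (univ.filter (fun y => badj x y)).card = 4 := by decide

lemma fano_pt : ∀ p q : Fin 7, ∃ l : Fin 7, on p l ∧ on q l := by decide

lemma fano_ln : ∀ l m : Fin 7, ∃ p : Fin 7, on p l ∧ on p m := by decide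

/-- Vertices of the graph: `k` copies of the bipartite complement of the Heawood graph and a
complete graph on `r` vertices. -/
abbrev W (k r : ℕ) : Type := (Fin k × (Fin 7 × Bool)) ⊕ Fin r

/-- adjacency in the disjoint union of `k` copies of the bipartite complement of the Heawood graph
and of the complete graph on `r` vertices -/
def uadj (k r : ℕ) : W k r → W k r → Prop
  | .inl (i, x), .inl (j, y) => i = j ∧ badj x y
  | .inr a, .inr b => a ≠ b
  | _, _ => False

/-- disjoint union of `k` copies of the bipartite complement of the Heawood graph and of the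
complete graph on `r` vertices -/
def U (k r : ℕ) : SimpleGraph (W k r) where
  Adj := uadj k r
  symm := ⟨by
    rintro (⟨i, x⟩ | a) (⟨j, y⟩ | b) h
    · exact ⟨h.1.symm, badj_symm _ _ h.2⟩
    · exact h.elim
    · exact h.elim
    · exact Ne.symm h⟩
  loopless := ⟨by
    rintro (⟨i, x⟩ | a) h
    · exact badj_irrefl _ h.2
    · exact h rfl⟩

lemma card_W (k r : ℕ) : Fintype.card (W k r) = 14 * k + r := by
  simp [W, Fintype.card_sum, Fintype.card_prod]
  ring

lemma pair_of_card_le_two {α : Type} [DecidableEq α] [Inhabited α] (S : Finset α) (h : S.card ≤ 2) :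
    ∃ p q : α, ∀ x ∈ S, x = p ∨ x = q := by
  rcases Nat.lt_or_ge S.card 2 with h1 | h1
  · have : S.card ≤ 1 := by omega
    rw [Finset.card_le_one_iff_subset_singleton] at this
    obtain ⟨x, hx⟩ := this
    exact ⟨x, x, fun y hy => Or.inl (by simpa using hx hy)⟩
  · obtain ⟨x, y, _, hxy⟩ := Finset.card_eq_two.mp (le_antisymm h h1)
    exact ⟨x, y, fun z hz => by simpa [hxy] using hz⟩

/-- a total dominating set of one copy has at least six elements -/
lemma copy_lower (S : Finset (Fin 7 × Bool)) (h : ∀ v, ∃ u ∈ S, badj v u) : 6 ≤ S.card := by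
  classical
  set P : Finset (Fin 7) := univ.filter (fun p => (p, false) ∈ S) with hP
  set L : Finset (Fin 7) := univ.filter (fun l => (l, true) ∈ S) with hL
  have hP3 : 3 ≤ P.card := by
    by_contra hcon
    obtain ⟨p, q, hpq⟩ := pair_of_card_le_two P (by omega)
    obtain ⟨l, hl1, hl2⟩ := fano_pt p q
    obtain ⟨⟨u, b⟩, hu, hadj⟩ := h (l, true)
    cases b with
    | true => exact hadj
    | false =>
      have : u ∈ P := by simp [hP, hu]
      rcases hpq u this with rfl | rfl
      · exact hadj hl1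
      · exact hadj hl2
  have hL3 : 3 ≤ L.card := by
    by_contra hcon
    obtain ⟨p, q, hpq⟩ := pair_of_card_le_two L (by omega)
    obtain ⟨l, hl1, hl2⟩ := fano_ln p q
    obtain ⟨⟨u, b⟩, hu, hadj⟩ := h (l, false)
    cases b with
    | false => exact hadj
    | true =>
      have : u ∈ L := by simp [hL, hu]
      rcases hpq u this with rfl | rfl
      · exact hadj hl1
      · exact hadj hl2
  have hsub : (P.image (fun p => (p, false))) ∪ (L.image (fun l => (l, true))) ⊆ S := by
    intro x hx
    simp only [mem_union, mem_image] at hx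
    rcases hx with ⟨p, hp, rfl⟩ | ⟨l, hl, rfl⟩
    · exact (mem_filter.mp hp).2
    · exact (mem_filter.mp hl).2
  have hdis : Disjoint (P.image (fun p => (p, false))) (L.image (fun l => (l, true))) := by
    rw [Finset.disjoint_left]
    intro x hx hx'
    simp only [mem_image] at hx hx'
    obtain ⟨p, _, rfl⟩ := hx
    obtain ⟨l, _, h2⟩ := hx'
    simp at h2
  have := Finset.card_le_card hsub
  rw [Finset.card_union_of_disjoint hdis,
    Finset.card_image_of_injective _ (fun a b h => (Prod.mk.inj h).1),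
    Finset.card_image_of_injective _ (fun a b h => (Prod.mk.inj h).1)] at this
  omega

lemma clique_lower {r : ℕ} (hr : 1 ≤ r) (S : Finset (Fin r)) (h : ∀ v, ∃ u ∈ S, v ≠ u) :
    2 ≤ S.card := by
  obtain ⟨u, hu, _⟩ := h ⟨0, hr⟩
  obtain ⟨w, hw, hne⟩ := h u
  exact Finset.one_lt_card.mpr ⟨u, hu, w, hw, hne⟩

lemma tds_lower {k r : ℕ} (hr : 1 ≤ r) (S : Finset (W k r)) (h : IsTotalDominating (U k r) S) :
    6 * k + 2 ≤ S.card := by
  classical
  set A : Fin k → Finset (Fin 7 × Bool) := fun i => univ.filter (fun x => Sum.inl (i, x) ∈ S) with hA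
  set B : Finset (Fin r) := univ.filter (fun b => Sum.inr b ∈ S) with hB
  have hAc : ∀ i, 6 ≤ (A i).card := by
    intro i
    apply copy_lower
    intro v
    obtain ⟨u, hu, hadj⟩ := h (Sum.inl (i, v))
    rcases u with ⟨j, y⟩ | b
    · obtain ⟨rfl, h2⟩ : i = j ∧ badj v y := hadj
      exact ⟨y, by simp [hA, hu], h2⟩
    · exact (hadj : False).elim
  have hBc : 2 ≤ B.card := by
    apply clique_lower hr
    intro v
    obtain ⟨u, hu, hadj⟩ := h (Sum.inr v)
    rcases u with ⟨j, y⟩ | b
    · exact (hadj : False).elim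
    · exact ⟨b, by simp [hB, hu], hadj⟩
  have hinj : ∀ i : Fin k, Function.Injective (fun x : Fin 7 × Bool => (Sum.inl (i, x) : W k r)) := by
    intro i a b h
    simpa using h
  have hinj' : Function.Injective (fun b : Fin r => (Sum.inr b : W k r)) := Sum.inr_injective
  have hS : S.card = ∑ i, (A i).card + B.card := by
    have h1 : S = ((univ : Finset (Fin k)).biUnion (fun i => (A i).image
        (fun x => (Sum.inl (i, x) : W k r)))) ∪ B.image (fun b => (Sum.inr b : W k r)) := by
      ext x
      rw [mem_union, mem_biUnion, mem_image]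
      constructor
      · intro hx
        rcases x with ⟨i, x⟩ | b
        · exact Or.inl ⟨i, mem_univ i, mem_image.mpr ⟨x, mem_filter.mpr ⟨mem_univ _, hx⟩, rfl⟩⟩
        · exact Or.inr ⟨b, mem_filter.mpr ⟨mem_univ _, hx⟩, rfl⟩
      · rintro (⟨i, _, hx⟩ | ⟨b, hb, rfl⟩)
        · obtain ⟨y, hy, rfl⟩ := mem_image.mp hx
          exact (mem_filter.mp hy).2
        · exact (mem_filter.mp hb).2
    have h2 : S.card = (((univ : Finset (Fin k)).biUnion (fun i => (A i).image
        (fun x => (Sum.inl (i, x) : W k r)))) ∪ B.image (fun b => (Sum.inr b : W k r))).card := by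
      rw [← h1]
    rw [h2, Finset.card_union_of_disjoint, Finset.card_biUnion,
      Finset.card_image_of_injective _ hinj']
    · congr 1
      exact Finset.sum_congr rfl (fun i _ => Finset.card_image_of_injective _ (hinj i))
    · intro i _ j _ hij
      rw [Function.onFun, Finset.disjoint_left]
      intro x hx hx'
      obtain ⟨a, _, rfl⟩ := mem_image.mp hx
      obtain ⟨b, _, h3⟩ := mem_image.mp hx'
      simp only [Sum.inl.injEq, Prod.mk.injEq] at h3
      exact hij h3.1.symm
    · rw [Finset.disjoint_left]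
      intro x hx hx'
      obtain ⟨i, _, hx⟩ := mem_biUnion.mp hx
      obtain ⟨a, _, rfl⟩ := mem_image.mp hx
      obtain ⟨b, _, h3⟩ := mem_image.mp hx'
      simp at h3
  have hsum : ∑ i : Fin k, 6 ≤ ∑ i, (A i).card := Finset.sum_le_sum (fun i _ => hAc i)
  simp only [sum_const, card_univ, Fintype.card_fin, smul_eq_mul] at hsum
  omega

lemma le_gammaT {V : Type} [Fintype V] (G : SimpleGraph V) (m : ℕ)
    (hne : ∀ v, ∃ u, G.Adj v u) (h : ∀ S, IsTotalDominating G S → m ≤ S.card) : m ≤ gammaT G := by
  have hset : {k : ℕ | ∃ S : Finset V, IsTotalDominating G S ∧ S.card = k}.Nonempty :=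
    ⟨_, univ, fun v => (hne v).imp fun u hu => ⟨mem_univ u, hu⟩, rfl⟩
  obtain ⟨S, hS, hc⟩ := Nat.sInf_mem hset
  rw [gammaT, ← hc]
  exact h S hS

lemma exists_badj (x : Fin 7 × Bool) : ∃ y, badj x y := by
  revert x; decide

lemma U_noiso {k r : ℕ} (hr : 2 ≤ r) (v : W k r) : ∃ u, (U k r).Adj v u := by
  rcases v with ⟨i, x⟩ | a
  · obtain ⟨y, hy⟩ := exists_badj x
    exact ⟨Sum.inl (i, y), rfl, hy⟩
  · by_cases ha : a = ⟨0, by omega⟩
    · refine ⟨Sum.inr ⟨1, by omega⟩, ?_⟩
      show a ≠ _
      rw [ha]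
      intro h
      simp [Fin.ext_iff] at h
    · exact ⟨Sum.inr ⟨0, by omega⟩, ha⟩

lemma gammaT_U {k r : ℕ} (hr : 2 ≤ r) : 6 * k + 2 ≤ gammaT (U k r) :=
  le_gammaT _ _ (U_noiso hr) (fun S hS => tds_lower (by omega) S hS)

lemma compl_adj {k r : ℕ} (v w : W k r) : (U k r)ᶜ.Adj v w ↔ v ≠ w ∧ ¬ uadj k r v w := by
  rw [SimpleGraph.compl_adj]; rfl

lemma gammaT_compl {k r : ℕ} (hk : 2 ≤ k) : 2 ≤ gammaT (U k r)ᶜ := by
  apply le_gammaT
  · intro v
    rcases v with ⟨i, x⟩ | a
    · by_cases hi : i = ⟨0, by omega⟩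
      · refine ⟨Sum.inl (⟨1, by omega⟩, x), ?_⟩
        rw [compl_adj, hi]
        refine ⟨by simp [Fin.ext_iff], ?_⟩
        rintro ⟨h, _⟩
        simp [Fin.ext_iff] at h
      · refine ⟨Sum.inl (⟨0, by omega⟩, x), ?_⟩
        rw [compl_adj]
        refine ⟨by simpa using hi, ?_⟩
        rintro ⟨h, _⟩
        exact hi h
    · refine ⟨Sum.inl (⟨0, by omega⟩, (0, false)), ?_⟩
      rw [compl_adj]
      exact ⟨by simp, fun h => h⟩
  · intro S hS
    obtain ⟨u, hu, _⟩ := hS (Sum.inl (⟨0, by omega⟩, (0, false)))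
    obtain ⟨w, hw, hadj⟩ := hS u
    exact Finset.one_lt_card.mpr ⟨u, hu, w, hw, hadj.ne⟩

lemma compl_conn {k r : ℕ} (hk : 2 ≤ k) : (U k r)ᶜ.Connected := by
  classical
  have h0 : Nonempty (W k r) := ⟨Sum.inl (⟨0, by omega⟩, (0, false))⟩
  -- vertices in copies `0` and `1`
  set a : W k r := Sum.inl (⟨0, by omega⟩, (0, false)) with ha
  set b : W k r := Sum.inl (⟨1, by omega⟩, (0, false)) with hb
  have hab : (U k r)ᶜ.Adj a b := by
    rw [compl_adj, ha, hb]
    refine ⟨by simp [Fin.ext_iff], ?_⟩
    rintro ⟨h, _⟩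
    simp [Fin.ext_iff] at h
  have hr : ∀ v : W k r, (U k r)ᶜ.Reachable v a := by
    intro v
    rcases v with ⟨i, x⟩ | c
    · by_cases hi : i = ⟨0, by omega⟩
      · have h1 : (U k r)ᶜ.Adj (Sum.inl (i, x)) b := by
          rw [compl_adj, hb, hi]
          refine ⟨by simp [Fin.ext_iff], ?_⟩
          rintro ⟨h, _⟩
          simp [Fin.ext_iff] at h
        exact h1.reachable.trans hab.symm.reachable
      · have h1 : (U k r)ᶜ.Adj (Sum.inl (i, x)) a := by
          rw [compl_adj, ha]
          refine ⟨by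
            intro h
            simp only [Sum.inl.injEq, Prod.mk.injEq] at h
            exact hi h.1, ?_⟩
          rintro ⟨h, _⟩
          exact hi h
        exact h1.reachable
    · have h1 : (U k r)ᶜ.Adj (Sum.inr c) a := by
        rw [compl_adj, ha]
        exact ⟨by simp, fun h => h⟩
      exact h1.reachable
  exact { preconnected := fun u v => (hr u).trans (hr v).symm, nonempty := h0 }

open Classical in
lemma deg_U_inl {k r : ℕ} (i : Fin k) (x : Fin 7 × Bool) :
    (U k r).degree (Sum.inl (i, x)) = 4 := by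
  have hinj : Function.Injective (fun x : Fin 7 × Bool => (Sum.inl (i, x) : W k r)) := by
    intro a b h
    simpa using h
  have h : (U k r).neighborFinset (Sum.inl (i, x)) =
      (univ.filter (fun y => badj x y)).image (fun y => (Sum.inl (i, y) : W k r)) := by
    ext w
    rw [SimpleGraph.mem_neighborFinset, mem_image]
    constructor
    · intro h
      rcases w with ⟨j, y⟩ | b
      · obtain ⟨rfl, h2⟩ : i = j ∧ badj x y := h
        exact ⟨y, mem_filter.mpr ⟨mem_univ _, h2⟩, rfl⟩
      · exact (h : False).elim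
    · rintro ⟨y, hy, rfl⟩
      exact ⟨rfl, (mem_filter.mp hy).2⟩
  rw [← SimpleGraph.card_neighborFinset_eq_degree, h, card_image_of_injective _ hinj]
  rw [← badj_deg x]

open Classical in
lemma deg_U_inr {k r : ℕ} (a : Fin r) : (U k r).degree (Sum.inr a) = r - 1 := by
  have h : (U k r).neighborFinset (Sum.inr a) =
      ((univ : Finset (Fin r)).erase a).image (fun y => (Sum.inr y : W k r)) := by
    ext w
    rw [SimpleGraph.mem_neighborFinset, mem_image]
    constructor
    · intro h
      rcases w with ⟨j, y⟩ | b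
      · exact (h : False).elim
      · have h' : a ≠ b := h
        exact ⟨b, mem_erase.mpr ⟨Ne.symm h', mem_univ _⟩, rfl⟩
    · rintro ⟨y, hy, rfl⟩
      exact (Ne.symm (mem_erase.mp hy).1 : a ≠ y)
  rw [← SimpleGraph.card_neighborFinset_eq_degree, h, card_image_of_injective _ Sum.inr_injective,
    card_erase_of_mem (mem_univ _)]
  simp

open Classical in
lemma deltaStar_compl {k r : ℕ} (hk : 2 ≤ k) (hr : 5 ≤ r) (hkr : r ≤ 14 * k) :
    deltaStar (U k r)ᶜ = 4 := by
  have hn : Nonempty (W k r) := ⟨Sum.inl (⟨0, by omega⟩, (0, false))⟩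
  have hU : (U k r).minDegree = 4 := by
    apply le_antisymm
    · refine ((U k r).minDegree_le_degree (Sum.inl (⟨0, by omega⟩, (0, false)))).trans ?_
      rw [deg_U_inl]
    · apply SimpleGraph.le_minDegree_of_forall_le_degree
      rintro (⟨i, x⟩ | a)
      · rw [deg_U_inl]
      · rw [deg_U_inr]; omega
  have hC : 4 ≤ (U k r)ᶜ.minDegree := by
    apply SimpleGraph.le_minDegree_of_forall_le_degree
    rintro (⟨i, x⟩ | a)
    · rw [SimpleGraph.degree_compl, deg_U_inl, card_W]; omega
    · rw [SimpleGraph.degree_compl, deg_U_inr, card_W]; omega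
  have hgen : ∀ (G H : SimpleGraph (W k r)) (i1 : DecidableRel G.Adj) (i2 : DecidableRel H.Adj),
      G = H → @SimpleGraph.minDegree _ G _ i1 = @SimpleGraph.minDegree _ H _ i2 := by
    intro G H i1 i2 h
    subst h
    have : i1 = i2 := Subsingleton.elim _ _
    rw [this]
  unfold deltaStar
  rw [hgen (U k r)ᶜᶜ (U k r) _ (fun a b => propDecidable _) (compl_compl _), hU,
    hgen (U k r)ᶜ (U k r)ᶜ _ (fun a b => SimpleGraph.Compl.adjDecidable (W k r) (U k r) a b) rfl]
  exact min_eq_right hC

/-- The graphs used: for all large `n` there is a connected graph `G` of order `n` with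
`δ*(G) = 4`, total domination number at least `2`, whose complement has total domination number
at least `6 k + 2` where `n = 14 k + r` with `5 ≤ r ≤ 18`. -/
theorem exists_graph (k r : ℕ) (hk : 2 ≤ k) (hr : 5 ≤ r) (hkr : r ≤ 14 * k) :
    ∃ (V : Type) (_ : Fintype V) (G : SimpleGraph V), Fintype.card V = 14 * k + r ∧
      G.Connected ∧ deltaStar G = 4 ∧ 2 ≤ gammaT G ∧ 6 * k + 2 ≤ gammaT Gᶜ := by
  refine ⟨W k r, inferInstance, (U k r)ᶜ, card_W k r, compl_conn hk, deltaStar_compl hk hr hkr,
    gammaT_compl hk, ?_⟩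
  rw [compl_compl]
  exact gammaT_U (by omega)

end Pool.Agent.TH534.NG
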